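import Mathlib
import Pool.Agent.Lib.helper86.FeldmanMoore

/-! A nonsmooth continuous action has an invariant perfect minimal compressible piece. -/

set_option autoImplicit false

open Set MeasureTheory Topology Filter Function

namespace Pool.Agent.Lib.MP_06d84d_lc

open Pool.Agent.Lib.helper86

theorem polish_of_isGδ {X : Type*} [TopologicalSpace X] [PolishSpace X] {s : Set X}
    (hs : IsGδ s) : PolishSpace s := by
  obtain ⟨U, hU, rfl⟩ := isGδ_iff_eq_iInter_nat.1 hs
  have : ∀ n, PolishSpace (U n) := fun n => (hU n).polishSpace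
  let φ : (⋂ n, U n : Set X) → ∀ n, U n := fun x n => ⟨x.1, mem_iInter.1 x.2 n⟩
  have hφ : Continuous φ := continuous_pi fun n => continuous_subtype_val.subtype_mk _
  have hg : Continuous (fun f : (∀ n, U n) => (f 0).1) :=
    continuous_subtype_val.comp (continuous_apply 0)
  have hemb : IsEmbedding φ := IsEmbedding.of_comp hφ hg IsEmbedding.subtypeVal
  have hr : range φ = ⋂ n, {f | (f n).1 = (f 0).1} := by
    ext f
    constructor
    · rintro ⟨x, rfl⟩
      exact mem_iInter.2 fun n => rfl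
    · intro hf
      have hf' : ∀ n, (f n).1 = (f 0).1 := fun n => mem_iInter.1 hf n
      refine ⟨⟨(f 0).1, mem_iInter.2 fun n => ?_⟩, funext fun n => Subtype.ext (hf' n).symm⟩
      rw [← hf' n]
      exact (f n).2
  have hcl : IsClosed (range φ) := by
    rw [hr]
    exact isClosed_iInter fun n =>
      isClosed_eq (continuous_subtype_val.comp (continuous_apply n)) hg
  exact (IsClosedEmbedding.mk hemb hcl).polishSpace

theorem exists_basis_seq (X : Type*) [TopologicalSpace X] [SecondCountableTopology X] :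
    ∃ B : ℕ → Set X, (∀ n, IsOpen (B n)) ∧
      ∀ x (U : Set X), x ∈ U → IsOpen U → ∃ n, x ∈ B n ∧ B n ⊆ U := by
  have hc : (insert ∅ (TopologicalSpace.countableBasis X)).Countable :=
    (TopologicalSpace.countable_countableBasis X).insert _
  obtain ⟨B, hB⟩ := hc.exists_eq_range (insert_nonempty _ _)
  have hb := TopologicalSpace.isBasis_countableBasis X
  refine ⟨B, fun n => ?_, fun x U hx hU => ?_⟩
  · have : B n ∈ insert ∅ (TopologicalSpace.countableBasis X) := hB ▸ mem_range_self n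
    rcases this with h | h
    · rw [h]; exact isOpen_empty
    · exact hb.isOpen h
  · obtain ⟨V, hV, hxV, hVU⟩ := hb.exists_subset_of_mem_open hx hU
    have : V ∈ range B := hB ▸ mem_insert_of_mem _ hV
    obtain ⟨n, rfl⟩ := this
    exact ⟨n, hxV, hVU⟩

section

variable {X G : Type*} [TopologicalSpace X] [PolishSpace X] [MeasurableSpace X] [BorelSpace X]
  [Group G] [Countable G] [MulAction G X] [ContinuousConstSMul G X]

theorem smooth_of_isolated
    (h : ∀ x : X, ∃ U : Set X, IsOpen U ∧ x ∈ U ∧ ∀ g : G, g • x ∈ U → g • x = x) :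
    ∃ f : X → ℝ, Measurable f ∧ ∀ x y, (∃ g : G, g • x = y) ↔ f x = f y := by
  classical
  obtain ⟨B, hBo, hB⟩ := exists_basis_seq X
  let T : ℕ → Set X := fun n => B n ∩ ⋂ g : G, {x | g • x ∈ B n → g • x = x}
  have hmg : ∀ g : G, Measurable (fun x : X => g • x) := fun g =>
    (continuous_const_smul g).measurable
  have hT : ∀ n, MeasurableSet (T n) := by
    intro n
    refine (hBo n).measurableSet.inter (MeasurableSet.iInter fun g => ?_)
    have : {x : X | g • x ∈ B n → g • x = x} =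
        ((fun x : X => g • x) ⁻¹' B n)ᶜ ∪ {x | g • x = x} := by
      ext x; simp [imp_iff_not_or]
    rw [this]
    exact (hmg g (hBo n).measurableSet).compl.union (measurableSet_eq_fun (hmg g) measurable_id)
  have hTu : ∀ n, ∀ a ∈ T n, ∀ b ∈ T n, (∃ g : G, g • a = b) → a = b := by
    rintro n a ha b hb ⟨g, rfl⟩
    exact (mem_iInter.1 ha.2 g hb.1).symm
  have hex : ∀ x : X, ∃ n, ∃ g : G, g • x ∈ T n := by
    intro x
    obtain ⟨U, hU, hxU, hiso⟩ := h x
    obtain ⟨n, hn, hnU⟩ := hB x U hxU hU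
    refine ⟨n, 1, ?_⟩
    rw [one_smul]
    exact ⟨hn, mem_iInter.2 fun g hg => hiso g (hnU hg)⟩
  have hN : ∀ (x : X) (g : G), Nat.find (hex (g • x)) = Nat.find (hex x) := by
    intro x g
    congr 1
    funext n
    apply propext
    constructor
    · rintro ⟨k, hk⟩
      exact ⟨k * g, by rwa [mul_smul]⟩
    · rintro ⟨k, hk⟩
      exact ⟨k * g⁻¹, by rwa [mul_smul, inv_smul_smul]⟩
  choose γ hγ using fun x => Nat.find_spec (hex x)
  let s : X → X := fun x => γ x • x
  have hs : ∀ x y, (∃ g : G, g • x = y) → y ∈ T (Nat.find (hex x)) → s x = y := by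
    rintro x _ ⟨g, rfl⟩ hy
    exact hTu _ _ (hγ x) _ hy ⟨g * (γ x)⁻¹, by rw [mul_smul, inv_smul_smul]⟩
  have hNm : Measurable (fun x => Nat.find (hex x)) := by
    refine measurable_find hex fun n => ?_
    have : {x : X | ∃ g : G, g • x ∈ T n} = ⋃ g : G, (fun x : X => g • x) ⁻¹' T n := by
      ext x; simp
    rw [this]
    exact MeasurableSet.iUnion fun g => hmg g (hT n)
  have hsm : Measurable s := by
    apply measurable_of_graph
    have : {p : X × X | s p.1 = p.2} = (⋃ g : G, {p : X × X | g • p.1 = p.2}) ∩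
        ⋃ n, ((fun p : X × X => Nat.find (hex p.1)) ⁻¹' {n} ∩ Prod.snd ⁻¹' T n) := by
      ext ⟨x, y⟩
      simp only [mem_ofPred_eq, mem_inter_iff, mem_iUnion, mem_preimage, mem_singleton_iff]
      constructor
      · rintro rfl
        exact ⟨⟨γ x, rfl⟩, _, rfl, hγ x⟩
      · rintro ⟨h1, n, rfl, h2⟩
        exact hs x y h1 h2
    rw [this]
    refine (MeasurableSet.iUnion fun g => measurableSet_eq_fun ((hmg g).comp measurable_fst)
      measurable_snd).inter (MeasurableSet.iUnion fun n => ?_)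
    exact ((hNm.comp measurable_fst) (measurableSet_singleton n)).inter (measurable_snd (hT n))
  refine ⟨fun x => embeddingReal X (s x), (measurableEmbedding_embeddingReal X).measurable.comp hsm,
    fun x y => ⟨?_, fun hxy => ?_⟩⟩
  · rintro ⟨g, rfl⟩
    have : s x = s (g • x) := by
      refine hs x _ ⟨γ (g • x) * g, by rw [mul_smul]⟩ ?_
      rw [← hN x g]
      exact hγ _
    simp only [this]
  · have : s x = s y := (measurableEmbedding_embeddingReal X).injective hxy
    exact ⟨(γ y)⁻¹ * γ x, by rw [mul_smul]; exact inv_smul_eq_iff.2 this⟩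

theorem exists_core [PerfectSpace X] (x₀ : X) (hd : Dense (MulAction.orbit G x₀)) :
    ∃ W : SubMulAction G X, IsGδ (W : Set X) ∧ Dense (W : Set X) ∧ x₀ ∉ W ∧
      (∀ w ∈ W, Dense (MulAction.orbit G w)) ∧
      ∃ j : W × ℕ → W, Measurable j ∧ Injective j ∧ ∀ p, ∃ g : G, j p = g • p.1 := by
  classical
  have hinf : Infinite X := by
    by_contra hfin
    rw [not_infinite_iff_finite] at hfin
    have := PerfectSpace.not_isolated x₀
    exact this.ne (discreteTopology_iff_nhds_ne.1 inferInstance x₀)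
  obtain ⟨V', hV'inf, hV'o, hV'd⟩ := exists_seq_infinite_isOpen_pairwise_disjoint X
  let V : ℕ → ℕ → Set X := fun n i => V' (Nat.pair n i)
  obtain ⟨B, hBo, hB⟩ := exists_basis_seq X
  have trans : ∀ U₁ U₂ : Set X, IsOpen U₁ → IsOpen U₂ → U₁.Nonempty → U₂.Nonempty →
      ∃ g : G, ∃ x ∈ U₁, g • x ∈ U₂ := by
    intro U₁ U₂ h1 h2 n1 n2
    obtain ⟨_, ⟨a, rfl⟩, ha⟩ := hd.exists_mem_open h1 n1
    obtain ⟨_, ⟨b, rfl⟩, hb⟩ := hd.exists_mem_open h2 n2
    exact ⟨b * a⁻¹, _, ha, by simpa [mul_smul] using hb⟩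
  have hg : ∀ n i, ∃ g : G, (B i).Nonempty → ∃ x ∈ B i, g • x ∈ V n i := by
    intro n i
    by_cases h : (B i).Nonempty
    · obtain ⟨g, hg⟩ := trans (B i) (V n i) (hBo i) (hV'o _) h (hV'inf _).nonempty
      exact ⟨g, fun _ => hg⟩
    · exact ⟨1, fun h' => absurd h' h⟩
  choose g hg using hg
  have hcs : ∀ k : G, Continuous (fun x : X => k • x) := fun k => continuous_const_smul k
  let O₁ : ℕ → Set X := fun n => ⋃ i, (fun x : X => g n i • x) ⁻¹' V n i
  let O₂ : ℕ → Set X := fun i => {x | (B i).Nonempty → ∃ k : G, k • x ∈ B i}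
  let O : ℕ → Set X := fun n => O₁ n ∩ (O₂ n ∩ {x₀}ᶜ)
  have hO₁o : ∀ n, IsOpen (O₁ n) := fun n => isOpen_iUnion fun i => (hV'o _).preimage (hcs _)
  have hO₁d : ∀ n, Dense (O₁ n) := by
    intro n
    rw [dense_iff_inter_open]
    rintro U hU ⟨x, hx⟩
    obtain ⟨i, hi, hiU⟩ := hB x U hx hU
    obtain ⟨y, hy, hy'⟩ := hg n i ⟨x, hi⟩
    exact ⟨y, hiU hy, mem_iUnion.2 ⟨i, hy'⟩⟩
  have hO₂o : ∀ i, IsOpen (O₂ i) := by
    intro i
    by_cases h : (B i).Nonempty
    · have : O₂ i = ⋃ k : G, (fun x : X => k • x) ⁻¹' B i := by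
        ext x; simp [O₂, h]
      rw [this]
      exact isOpen_iUnion fun k => (hBo i).preimage (hcs k)
    · have : O₂ i = univ := by
        ext x; simp [O₂, h]
      rw [this]
      exact isOpen_univ
  have hO₂d : ∀ i, Dense (O₂ i) := by
    intro i
    rw [dense_iff_inter_open]
    intro U hU hne
    by_cases h : (B i).Nonempty
    · obtain ⟨k, x, hx, hx'⟩ := trans U (B i) hU (hBo i) hne h
      exact ⟨x, hx, fun _ => ⟨k, hx'⟩⟩
    · obtain ⟨x, hx⟩ := hne
      exact ⟨x, hx, fun h' => absurd h' h⟩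
  have hOo : ∀ n, IsOpen (O n) := fun n =>
    (hO₁o n).inter ((hO₂o n).inter isOpen_compl_singleton)
  have hOd : ∀ n, Dense (O n) := fun n =>
    (hO₁d n).inter_of_isOpen_left ((hO₂d n).inter_of_isOpen_left (dense_compl_singleton x₀)
      (hO₂o n)) (hO₁o n)
  let W : SubMulAction G X :=
    { carrier := ⋂ q : G × ℕ, (fun x : X => q.1 • x) ⁻¹' O q.2
      smul_mem' := by
        intro k x hx
        refine mem_iInter.2 fun q => ?_
        have := mem_iInter.1 hx (q.1 * k, q.2)
        simpa [mul_smul] using this }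
  have hW : ∀ w ∈ W, ∀ n, w ∈ O n := by
    intro w hw n
    have := mem_iInter.1 hw (1, n)
    simpa using this
  have hpre : ∀ q : G × ℕ, IsOpen ((fun x : X => q.1 • x) ⁻¹' O q.2) := fun q =>
    (hOo _).preimage (hcs _)
  refine ⟨W, IsGδ.iInter_of_isOpen hpre, dense_iInter_of_isOpen hpre fun q =>
    (hOd _).preimage (isOpenMap_smul q.1), fun h => (hW _ h 0).2.2 rfl, ?_, ?_⟩
  · intro w hw
    rw [dense_iff_inter_open]
    rintro U hU ⟨x, hx⟩
    obtain ⟨i, hi, hiU⟩ := hB x U hx hU
    obtain ⟨k, hk⟩ := (hW w hw i).2.1 ⟨x, hi⟩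
    exact ⟨k • w, hiU hk, k, rfl⟩
  · have hex : ∀ p : W × ℕ, ∃ i, g p.2 i • (p.1 : X) ∈ V p.2 i := fun p =>
      mem_iUnion.1 (hW p.1 p.1.2 p.2).1
    refine ⟨fun p => g p.2 (Nat.find (hex p)) • p.1, ?_, ?_, fun p => ⟨_, rfl⟩⟩
    · refine Measurable.find (f := fun i (p : W × ℕ) => g p.2 i • p.1) (fun i => ?_)
        (fun i => ?_) hex
      · refine measurable_from_prod_countable_left fun n => ?_
        exact ((hcs (g n i)).measurable.comp measurable_subtype_coe).subtype_mk
      · have : {p : W × ℕ | g p.2 i • (p.1 : X) ∈ V p.2 i} =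
            ⋃ n, (Prod.fst ⁻¹' (Subtype.val ⁻¹' ((fun x : X => g n i • x) ⁻¹' V n i)) ∩
              Prod.snd ⁻¹' {n}) := by
          ext p; simp
        rw [this]
        exact MeasurableSet.iUnion fun n => (measurable_fst (measurable_subtype_coe
          ((hcs _).measurable (hV'o _).measurableSet))).inter
          (measurable_snd (measurableSet_singleton n))
    · intro p q hpq
      have hp := Nat.find_spec (hex p)
      have hq := Nat.find_spec (hex q)
      have hval : g p.2 (Nat.find (hex p)) • (p.1 : X) = g q.2 (Nat.find (hex q)) • (q.1 : X) :=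
        congrArg Subtype.val hpq
      have hpair : Nat.pair p.2 (Nat.find (hex p)) = Nat.pair q.2 (Nat.find (hex q)) := by
        by_contra hne
        exact Set.disjoint_left.1 (hV'd hne) hp (hval ▸ hq)
      rw [Nat.pair_eq_pair] at hpair
      rw [hpair.2, hpair.1] at hval
      exact Prod.ext (Subtype.ext (MulAction.injective _ hval)) hpair.1

end

end Pool.Agent.Lib.MP_06d84d_lc
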