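import Mathlib
import Pool.Agent.Lib.helper86.FeldmanMoore

/-! Gluing a Polish `G`-space `Y` at infinity of countably many copies of a `G`-space `W`. -/

set_option autoImplicit false

open Set MeasureTheory Topology Filter Function

namespace Pool.Agent.Lib.MP_06d84d_lc

open Pool.Agent.Lib.helper86

/-- the underlying set of the glued space -/
def Glue {Y C : Type} (_d : C → Y) (W : Type) : Type := Y ⊕ (C × W)

variable {Y C W : Type}

open Classical in
/-- the embedding defining the topology -/
noncomputable def emb (d : C → Y) : Y ⊕ (C × W) → Y × (C → W ⊕ Unit)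
  | Sum.inl y => (y, fun _ => Sum.inr ())
  | Sum.inr p => (d p.1, fun c => if c = p.1 then Sum.inl p.2 else Sum.inr ())

/-- the identity map into the glued space -/
def toG (d : C → Y) : Y ⊕ (C × W) ≃ Glue d W := Equiv.refl _

/-- the embedding on the glued space -/
noncomputable def embG (d : C → Y) (z : Glue d W) : Y × (C → W ⊕ Unit) := emb d ((toG d).symm z)

theorem emb_inl (d : C → Y) (y : Y) :
    embG d (toG d (Sum.inl y : Y ⊕ (C × W))) = (y, fun _ => Sum.inr ()) := rfl

open Classical in
theorem emb_inr (d : C → Y) (c : C) (w : W) :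
    embG d (toG d (Sum.inr (c, w))) =
      (d c, fun c' => if c' = c then Sum.inl w else Sum.inr ()) := rfl

theorem glue_cases (d : C → Y) (z : Glue d W) :
    (∃ y, z = toG d (Sum.inl y)) ∨ ∃ c w, z = toG d (Sum.inr (c, w)) := by
  obtain ⟨a, rfl⟩ := (toG d).surjective z
  rcases a with y | ⟨c, w⟩
  · exact Or.inl ⟨y, rfl⟩
  · exact Or.inr ⟨c, w, rfl⟩

theorem eq_of_emb_inl (d : C → Y) {z : Glue d W} {c : C} {w : W}
    (h : (embG d z).2 c = Sum.inl w) : z = toG d (Sum.inr (c, w)) := by
  rcases glue_cases d z with ⟨y, rfl⟩ | ⟨c', w', rfl⟩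
  · rw [emb_inl] at h
    simp at h
  · rw [emb_inr] at h
    by_cases hc : c = c'
    · subst hc
      simp only [if_true, Sum.inl.injEq] at h
      rw [h]
    · simp [hc] at h

theorem embG_injective (d : C → Y) : Injective (embG d : Glue d W → _) := by
  intro z z' h
  rcases glue_cases d z with ⟨y, rfl⟩ | ⟨c, w, rfl⟩
  · rcases glue_cases d z' with ⟨y', rfl⟩ | ⟨c', w', rfl⟩
    · have : y = y' := congrArg Prod.fst h
      rw [this]
    · apply eq_of_emb_inl d
      rw [h, emb_inr]
      simp
  · symm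
    apply eq_of_emb_inl d
    rw [← h, emb_inr]
    simp

theorem range_embG (d : C → Y) : range (embG d : Glue d W → _) =
    (⋂ c, ⋂ c', ⋂ (_ : c ≠ c'), ({p | p.2 c = Sum.inr ()} ∪ {p | p.2 c' = Sum.inr ()})) ∩
      ⋂ c, ({p | p.2 c = Sum.inr ()} ∪ {p | p.1 = d c}) := by
  ext p
  simp only [mem_range, mem_inter_iff, mem_iInter, mem_union, mem_ofPred_eq]
  constructor
  · rintro ⟨z, rfl⟩
    rcases glue_cases d z with ⟨y, rfl⟩ | ⟨c, w, rfl⟩
    · exact ⟨fun _ _ _ => Or.inl rfl, fun _ => Or.inl rfl⟩
    · rw [emb_inr]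
      refine ⟨fun a b hab => ?_, fun a => ?_⟩
      · by_cases ha : a = c
        · right
          have : b ≠ c := fun hb => hab (ha.trans hb.symm)
          simp [this]
        · left
          simp [ha]
      · by_cases ha : a = c
        · right
          simp [ha]
        · left
          simp [ha]
  · rintro ⟨h1, h2⟩
    by_cases h : ∀ c, p.2 c = Sum.inr ()
    · exact ⟨toG d (Sum.inl p.1), by rw [emb_inl]; exact Prod.ext rfl (funext fun c => (h c).symm)⟩
    · push Not at h
      obtain ⟨c, hc⟩ := h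
      obtain ⟨w, hw⟩ : ∃ w, p.2 c = Sum.inl w := by
        rcases hp : p.2 c with w | u
        · exact ⟨w, rfl⟩
        · exact absurd hp hc
      refine ⟨toG d (Sum.inr (c, w)), ?_⟩
      rw [emb_inr]
      refine Prod.ext ((h2 c).resolve_left hc).symm (funext fun c' => ?_)
      by_cases hc' : c' = c
      · subst hc'
        simp [hw]
      · simp only [hc', if_false]
        exact ((h1 c' c hc').resolve_right hc).symm

variable [TopologicalSpace Y] [TopologicalSpace W]

noncomputable instance topG (d : C → Y) : TopologicalSpace (Glue d W) :=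
  TopologicalSpace.induced (embG d) inferInstance

theorem inducing_embG (d : C → Y) : IsInducing (embG d : Glue d W → _) := ⟨rfl⟩

theorem continuous_coord (d : C → Y) (c : C) : Continuous (fun z : Glue d W => (embG d z).2 c) :=
  (continuous_apply c).comp (continuous_snd.comp (inducing_embG d).continuous)

theorem polish_glue [PolishSpace Y] [PolishSpace W] [Countable C] (d : C → Y) :
    PolishSpace (Glue d W) := by
  have hcl : ∀ c, IsClosed {p : Y × (C → W ⊕ Unit) | p.2 c = Sum.inr ()} := fun c =>
    isClosed_eq ((continuous_apply c).comp continuous_snd) continuous_const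
  refine (IsClosedEmbedding.mk ⟨inducing_embG d, embG_injective d⟩ ?_).polishSpace
  rw [range_embG]
  exact (isClosed_iInter fun c => isClosed_iInter fun c' => isClosed_iInter fun _ =>
    (hcl c).union (hcl c')).inter (isClosed_iInter fun c => (hcl c).union
      (isClosed_eq continuous_fst continuous_const))

theorem continuous_inl' (d : C → Y) :
    Continuous (fun y : Y => toG d (Sum.inl y : Y ⊕ (C × W))) := by
  rw [(inducing_embG d).continuous_iff]
  exact continuous_id.prodMk continuous_const

theorem continuous_inr' (d : C → Y) (c : C) :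
    Continuous (fun w : W => toG d (Sum.inr (c, w))) := by
  classical
  rw [(inducing_embG d).continuous_iff]
  change Continuous (fun w : W => ((d c, fun c' => if c' = c then Sum.inl w else Sum.inr ()) :
    Y × (C → W ⊕ Unit)))
  refine continuous_const.prodMk (continuous_pi fun c' => ?_)
  by_cases h : c' = c
  · simp only [h, if_true]
    exact continuous_inl
  · simp only [h, if_false]
    exact continuous_const

theorem continuous_of_pieces (d : C → Y) {Z : Type*} [TopologicalSpace Z] {h : Glue d W → Z}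
    (h1 : ∀ y, ContinuousAt h (toG d (Sum.inl y)))
    (h2 : ∀ c, Continuous (fun w => h (toG d (Sum.inr (c, w))))) : Continuous h := by
  rw [continuous_iff_continuousAt]
  intro z
  rcases glue_cases d z with ⟨y, rfl⟩ | ⟨c, w, rfl⟩
  · exact h1 y
  · let r : Glue d W → W := fun z => Sum.elim id (fun _ => w) ((embG d z).2 c)
    have hr : Continuous r := (continuous_id.sumElim continuous_const).comp (continuous_coord d c)
    have hopen : IsOpen ((fun z : Glue d W => (embG d z).2 c) ⁻¹' range Sum.inl) :=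
      isOpen_range_inl.preimage (continuous_coord d c)
    have hmem : toG d (Sum.inr (c, w)) ∈
        ((fun z : Glue d W => (embG d z).2 c) ⁻¹' range Sum.inl) := by
      refine ⟨w, ?_⟩
      simp [emb_inr]
    refine ((h2 c).comp hr).continuousAt.congr ?_
    filter_upwards [hopen.mem_nhds hmem] with z hz
    obtain ⟨w', hw'⟩ := hz
    have hz' := eq_of_emb_inl d hw'.symm
    have : r z = w' := by
      have hw'' : (embG d z).2 c = Sum.inl w' := hw'.symm
      simp only [r]
      rw [hw'']
      rfl
    simp only [comp_apply]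
    rw [this, ← hz']

theorem eventually_ne (d : C → Y) (y : Y) (c : C) :
    ∀ᶠ z in 𝓝 (toG d (Sum.inl y : Y ⊕ (C × W))), ∀ w, z ≠ toG d (Sum.inr (c, w)) := by
  have hopen : IsOpen ((fun z : Glue d W => (embG d z).2 c) ⁻¹' range Sum.inr) :=
    isOpen_range_inr.preimage (continuous_coord d c)
  filter_upwards [hopen.mem_nhds (show toG d (Sum.inl y) ∈ _ from ⟨(), rfl⟩)] with z hz
  rintro w rfl
  obtain ⟨u, hu⟩ := hz
  simp [emb_inr] at hu

theorem continuous_of_finite_support (d : C → Y) {h : Glue d W → Glue d W} (c₁ c₂ : C)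
    (h1 : ∀ y, h (toG d (Sum.inl y)) = toG d (Sum.inl y))
    (h2 : ∀ c w, c ≠ c₁ → c ≠ c₂ → h (toG d (Sum.inr (c, w))) = toG d (Sum.inr (c, w)))
    (h3 : ∀ c, Continuous (fun w => h (toG d (Sum.inr (c, w))))) : Continuous h := by
  refine continuous_of_pieces d (fun y => ?_) h3
  refine continuousAt_id.congr ?_
  filter_upwards [eventually_ne (W := W) d y c₁, eventually_ne (W := W) d y c₂] with z hz1 hz2
  rcases glue_cases d z with ⟨y', rfl⟩ | ⟨c, w, rfl⟩
  · exact (h1 y').symm
  · refine (h2 c w ?_ ?_).symm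
    · rintro rfl
      exact hz1 w rfl
    · rintro rfl
      exact hz2 w rfl

theorem inl_mem_closure (d : C → Y) (hd : ∀ y, (comap d (𝓝 y) ⊓ cofinite).NeBot) (y : Y)
    (w : W) : toG d (Sum.inl y) ∈ closure (range fun c => toG d (Sum.inr (c, w))) := by
  have := hd y
  refine mem_closure_of_tendsto (f := fun c => toG d (Sum.inr (c, w)))
    (b := comap d (𝓝 y) ⊓ cofinite) ?_ (Eventually.of_forall fun c => mem_range_self c)
  rw [(inducing_embG d).tendsto_nhds_iff, emb_inl]
  refine Tendsto.prodMk_nhds (tendsto_comap.mono_left inf_le_left) ?_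
  rw [tendsto_pi_nhds]
  intro c'
  refine tendsto_const_nhds.congr' ?_
  refine Eventually.filter_mono inf_le_right ?_
  filter_upwards [eventually_cofinite_ne c'] with c hc
  simp [hc.symm]

theorem perfect_glue [PerfectSpace W] [Nonempty W] (d : C → Y)
    (hd : ∀ y, (comap d (𝓝 y) ⊓ cofinite).NeBot) : PerfectSpace (Glue d W) := by
  rw [perfectSpace_iff_forall_not_isolated]
  intro z
  rcases glue_cases d z with ⟨y, rfl⟩ | ⟨c, w, rfl⟩
  · obtain ⟨w⟩ := ‹Nonempty W›
    rw [← mem_closure_iff_nhdsWithin_neBot]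
    refine closure_mono ?_ (inl_mem_closure d hd y w)
    rintro _ ⟨c, rfl⟩ h
    exact Sum.inr_ne_inl ((toG d).injective h)
  · have : Tendsto (fun w : W => toG d (Sum.inr (c, w))) (𝓝[≠] w)
        (𝓝[≠] (toG d (Sum.inr (c, w)))) := by
      refine tendsto_nhdsWithin_of_tendsto_nhds_of_eventually_within _
        (((continuous_inr' d c).tendsto w).mono_left nhdsWithin_le_nhds) ?_
      filter_upwards [self_mem_nhdsWithin] with w' hw' h
      apply hw'
      have := Sum.inr_injective ((toG d).injective h)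
      exact (Prod.ext_iff.1 this).2
    exact this.neBot

theorem glue_main {G : Type} [Group G] [Countable G] [PolishSpace Y] [PolishSpace W]
    [PerfectSpace W] [Nonempty Y] [MulAction G Y] [ContinuousConstSMul G Y]
    [MulAction G W] [ContinuousConstSMul G W] (w₀ : W) (hw₀ : Dense (MulAction.orbit G w₀)) :
    ∃ (Γ : Type) (_ : Group Γ) (_ : Countable Γ) (Z : Type) (_ : TopologicalSpace Z)
      (_ : PolishSpace Z) (_ : PerfectSpace Z) (_ : MulAction Γ Z) (_ : ContinuousConstSMul Γ Z)
      (e : Y ⊕ ((G × ℕ × ℕ) × W) ≃ Z), Continuous (fun y => e (Sum.inl y)) ∧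
        (∀ c, Continuous (fun w => e (Sum.inr (c, w)))) ∧
        (∀ a b, (∃ γ : Γ, γ • e a = e b) ↔
          ∃ g : G, g • (Sum.map id Prod.snd a : Y ⊕ W) = Sum.map id Prod.snd b) ∧
        ∃ z : Z, Dense (MulAction.orbit Γ z) := by
  classical
  let C := G × ℕ × ℕ
  let d : C → Y := fun c => c.1 • TopologicalSpace.denseSeq Y c.2.1
  have hd : ∀ y, (comap d (𝓝 y) ⊓ cofinite).NeBot := by
    intro y
    rw [inf_neBot_iff]
    intro s hs t ht
    obtain ⟨U, hU, hUs⟩ := mem_comap.1 hs
    obtain ⟨_, ⟨n, rfl⟩, hn⟩ := (TopologicalSpace.denseRange_denseSeq Y).inter_nhds_nonempty hU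
    have hinj : Injective (fun k : ℕ => ((1, n, k) : C)) := fun a b h => by
      simpa using h
    have : (fun k : ℕ => ((1, n, k) : C)) ⁻¹' t ∈ cofinite := hinj.tendsto_cofinite ht
    obtain ⟨k, hk⟩ := Filter.nonempty_of_mem this
    refine ⟨(1, n, k), hUs ?_, hk⟩
    simpa [d] using hn
  have : Nonempty W := ⟨w₀⟩
  let π : Glue d W → Y ⊕ W := fun z => Sum.map id Prod.snd ((toG d).symm z)
  let P : (Glue d W → Glue d W) → Prop := fun h => Continuous h ∧ ∀ z, ∃ g : G, g • π z = π (h z)
  -- first family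
  let a : G → Glue d W → Glue d W := fun g z => toG d
    (Sum.map (fun y => g • y) (fun p : C × W => (((g * p.1.1, p.1.2) : C), p.2)) ((toG d).symm z))
  have ha_inv : ∀ g, LeftInverse (a g⁻¹) (a g) := by
    intro g z
    rcases glue_cases d z with ⟨y, rfl⟩ | ⟨c, w, rfl⟩ <;> simp [a]
  have haP : ∀ g, P (a g) := by
    intro g
    constructor
    · rw [(inducing_embG d).continuous_iff]
      have : embG d ∘ a g = fun z => (g • (embG d z).1,
          fun c : C => (embG d z).2 (g⁻¹ * c.1, c.2)) := by
        funext z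
        rcases glue_cases d z with ⟨y, rfl⟩ | ⟨c, w, rfl⟩
        · rfl
        · change embG d (toG d (Sum.inr (((g * c.1, c.2) : C), w))) = _
          rw [emb_inr, emb_inr]
          refine Prod.ext (mul_smul _ _ _) (funext fun c' => ?_)
          have : (c' = (g * c.1, c.2)) ↔ ((g⁻¹ * c'.1, c'.2) : C) = c := by
            constructor
            · rintro rfl
              simp
            · rintro rfl
              simp
          by_cases hc : c' = (g * c.1, c.2)
          · simp only [if_pos hc, if_pos (this.1 hc)]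
          · simp only [if_neg hc, if_neg (fun h => hc (this.2 h))]
      rw [this]
      exact ((continuous_fst.comp (inducing_embG d).continuous).const_smul g).prodMk
        (continuous_pi fun c => continuous_coord d _)
    · intro z
      rcases glue_cases d z with ⟨y, rfl⟩ | ⟨c, w, rfl⟩
      · exact ⟨g, rfl⟩
      · exact ⟨1, by simp [π, a]⟩
  -- second family
  let s : C → C → Glue d W → Glue d W := fun c₁ c₂ z => toG d
    (Sum.map id (fun p : C × W => (Equiv.swap c₁ c₂ p.1, p.2)) ((toG d).symm z))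
  have hs_inv : ∀ c₁ c₂, Involutive (s c₁ c₂) := by
    intro c₁ c₂ z
    rcases glue_cases d z with ⟨y, rfl⟩ | ⟨c, w, rfl⟩ <;> simp [s]
  have hsP : ∀ c₁ c₂, P (s c₁ c₂) := by
    intro c₁ c₂
    constructor
    · refine continuous_of_finite_support d c₁ c₂ (fun y => rfl) (fun c w h1 h2 => ?_)
        (fun c => continuous_inr' d (Equiv.swap c₁ c₂ c))
      simp [s, Equiv.swap_apply_of_ne_of_ne h1 h2]
    · intro z
      rcases glue_cases d z with ⟨y, rfl⟩ | ⟨c, w, rfl⟩ <;> exact ⟨1, by simp [π, s]⟩
  -- third family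
  let t : C → G → Glue d W → Glue d W := fun c₁ g z => toG d
    (Sum.map id (fun p : C × W => (p.1, if p.1 = c₁ then g • p.2 else p.2)) ((toG d).symm z))
  have ht_inv : ∀ c g, LeftInverse (t c g⁻¹) (t c g) := by
    intro c₁ g z
    rcases glue_cases d z with ⟨y, rfl⟩ | ⟨c, w, rfl⟩
    · simp [t]
    · by_cases h : c = c₁ <;> simp [t, h]
  have htP : ∀ c g, P (t c g) := by
    intro c₁ g
    constructor
    · refine continuous_of_finite_support d c₁ c₁ (fun y => rfl) (fun c w h1 _ => ?_)
        (fun c => ?_)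
      · simp [t, h1]
      · by_cases h : c = c₁
        · have : (fun w => t c₁ g (toG d (Sum.inr (c, w)))) =
              fun w => toG d (Sum.inr (c, g • w)) := by
            funext w; simp [t, h]
          rw [this]
          exact (continuous_inr' d c).comp (continuous_const_smul g)
        · have : (fun w => t c₁ g (toG d (Sum.inr (c, w)))) =
              fun w => toG d (Sum.inr (c, w)) := by
            funext w; simp [t, h]
          rw [this]
          exact continuous_inr' d c
    · intro z
      rcases glue_cases d z with ⟨y, rfl⟩ | ⟨c, w, rfl⟩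
      · exact ⟨1, by simp [π, t]⟩
      · by_cases h : c = c₁
        · exact ⟨g, by simp [π, t, h]⟩
        · exact ⟨1, by simp [π, t, h]⟩
  let σ : G ⊕ (C × C) ⊕ (C × G) → Equiv.Perm (Glue d W) := fun i =>
    match i with
    | Sum.inl g => ⟨a g, a g⁻¹, ha_inv g, fun z => by simpa using ha_inv g⁻¹ z⟩
    | Sum.inr (Sum.inl p) => (hs_inv p.1 p.2).toPerm
    | Sum.inr (Sum.inr p) => ⟨t p.1 p.2, t p.1 p.2⁻¹, ht_inv _ _,
        fun z => by simpa using ht_inv p.1 p.2⁻¹ z⟩
  obtain ⟨inst, hP, hσ⟩ := exists_free_action σ P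
    ⟨continuous_id, fun z => ⟨1, one_smul _ _⟩⟩
    (fun f₁ f₂ h₁ h₂ => ⟨h₁.1.comp h₂.1, fun z => by
      obtain ⟨g₂, e₂⟩ := h₂.2 z
      obtain ⟨g₁, e₁⟩ := h₁.2 (f₂ z)
      exact ⟨g₁ * g₂, by rw [mul_smul, e₂, e₁]; rfl⟩⟩)
    (fun i => by
      rcases i with g | p | p
      · exact ⟨haP g, haP g⁻¹⟩
      · exact ⟨hsP _ _, hsP _ _⟩
      · exact ⟨htP _ _, htP _ _⟩)
  have hmove : ∀ (c c' : C) (w : W) (g : G), ∃ γ : FreeGroup (G ⊕ (C × C) ⊕ (C × G)),
      γ • toG d (Sum.inr (c, w)) = toG d (Sum.inr (c', g • w)) := by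
    intro c c' w g
    refine ⟨FreeGroup.of (Sum.inr (Sum.inl (c, c'))) * FreeGroup.of (Sum.inr (Sum.inr (c, g))), ?_⟩
    rw [mul_smul, hσ, hσ]
    change s c c' (t c g (toG d (Sum.inr (c, w)))) = _
    simp [s, t]
  refine ⟨FreeGroup (G ⊕ (C × C) ⊕ (C × G)), inferInstance, inferInstance, Glue d W, inferInstance,
    polish_glue d, perfect_glue d hd, inst, ⟨fun γ => (hP γ).1⟩, toG d, continuous_inl' d,
    continuous_inr' d, fun x y => ⟨?_, ?_⟩, toG d (Sum.inr ((1, 0, 0), w₀)), ?_⟩
  · rintro ⟨γ, hγ⟩
    obtain ⟨g, hg⟩ := (hP γ).2 (toG d x)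
    refine ⟨g, ?_⟩
    simp only [hγ] at hg
    exact hg
  · rintro ⟨g, hg⟩
    rcases x with x | ⟨c, w⟩ <;> rcases y with y | ⟨c', w'⟩
    · refine ⟨FreeGroup.of (Sum.inl g), ?_⟩
      rw [hσ]
      have : g • x = y := by simpa using hg
      rw [← this]
      rfl
    · simp at hg
    · simp at hg
    · have : g • w = w' := by simpa using hg
      rw [← this]
      exact hmove c c' w g
  · have h1 : ∀ c w, toG d (Sum.inr (c, w)) ∈ closure (MulAction.orbit
        (FreeGroup (G ⊕ (C × C) ⊕ (C × G))) (toG d (Sum.inr ((1, 0, 0), w₀)))) := by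
      intro c w
      refine map_mem_closure (f := fun w : W => toG d (Sum.inr (c, w)))
        (continuous_inr' d c) (hw₀ w) ?_
      rintro _ ⟨g, rfl⟩
      exact hmove _ c w₀ g
    intro z
    rcases glue_cases d z with ⟨y, rfl⟩ | ⟨c, w, rfl⟩
    · refine closure_minimal ?_ isClosed_closure (inl_mem_closure d hd y w₀)
      rintro _ ⟨c, rfl⟩
      exact h1 c w₀
    · exact h1 c w

end Pool.Agent.Lib.MP_06d84d_lc
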