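import Mathlib
import Pool.Agent.Lib.MP_06d84d_lc.Core
import Pool.Agent.Lib.MP_06d84d_lc.Glue

/-! Transitive continuous action realizations on perfect Polish spaces. -/

set_option autoImplicit false

open Set MeasureTheory Topology Filter Function

namespace Pool.Agent.Lib.MP_06d84d_lc

open Pool.Agent.Lib.helper86

theorem continuousConstSMul_sub {G X : Type*} [Group G] [MulAction G X] [TopologicalSpace X]
    [ContinuousConstSMul G X] (S : SubMulAction G X) : ContinuousConstSMul G S :=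
  ⟨fun g => ((continuous_const_smul g).comp continuous_subtype_val).subtype_mk _⟩

theorem perfect_of_dense {X : Type*} [TopologicalSpace X] [T1Space X] [PerfectSpace X]
    {s : Set X} (hs : Dense s) : PerfectSpace s := by
  rw [perfectSpace_iff_forall_not_isolated]
  intro x
  rw [← mem_closure_iff_nhdsWithin_neBot, closure_subtype]
  have h1 : Dense (s ∩ {x.1}ᶜ) :=
    hs.inter_of_isOpen_right (dense_compl_singleton x.1) isOpen_compl_singleton
  refine closure_mono ?_ (h1 x.1)
  rintro y ⟨hy, hne⟩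
  exact ⟨⟨y, hy⟩, fun h => hne (congrArg Subtype.val h), rfl⟩

theorem exists_piece {X G : Type} [TopologicalSpace X] [PolishSpace X] [MeasurableSpace X]
    [BorelSpace X] [Group G] [Countable G] [MulAction G X] [ContinuousConstSMul G X]
    (hns : ¬ ∃ f : X → ℝ, Measurable f ∧ ∀ x y, (∃ g : G, g • x = y) ↔ f x = f y) :
    ∃ (W : Type) (_ : TopologicalSpace W) (_ : PolishSpace W) (_ : PerfectSpace W)
      (_ : MeasurableSpace W) (_ : BorelSpace W) (_ : MulAction G W) (_ : ContinuousConstSMul G W)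
      (w₀ : W) (ι : W → X) (j : W × ℕ → W), Dense (MulAction.orbit G w₀) ∧ Continuous ι ∧
        Injective ι ∧ (∀ (g : G) w, ι (g • w) = g • ι w) ∧ (range ι)ᶜ.Nonempty ∧
        Measurable j ∧ Injective j ∧ ∀ p, ∃ g : G, j p = g • p.1 := by
  have hrec : ∃ x : X, ∀ U : Set X, IsOpen U → x ∈ U → ∃ g : G, g • x ∈ U ∧ g • x ≠ x := by
    by_contra h
    push Not at h
    exact hns (smooth_of_isolated h)
  obtain ⟨x₀, hx₀⟩ := hrec
  let K : SubMulAction G X :=
    { carrier := closure (MulAction.orbit G x₀)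
      smul_mem' := fun g x hx => map_mem_closure (continuous_const_smul g) hx
        (by rintro _ ⟨k, rfl⟩; exact ⟨g * k, mul_smul _ _ _⟩) }
  have hKc : IsClosed (K : Set X) := isClosed_closure
  have : PolishSpace K := hKc.polishSpace
  have : ContinuousConstSMul G K := continuousConstSMul_sub K
  let x₁ : K := ⟨x₀, subset_closure (MulAction.mem_orbit_self x₀)⟩
  have hd : Dense (MulAction.orbit G x₁) := by
    intro z
    rw [closure_subtype, SubMulAction.val_image_orbit]
    exact z.2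
  have : PerfectSpace K := by
    rw [perfectSpace_iff_forall_not_isolated]
    intro z
    rw [← mem_closure_iff_nhdsWithin_neBot, mem_closure_iff]
    intro U hU hzU
    obtain ⟨_, ⟨g, rfl⟩, hg⟩ := hd.exists_mem_open hU ⟨z, hzU⟩
    by_cases hz : g • x₁ = z
    · obtain ⟨V, hV, rfl⟩ := isOpen_induced_iff.1 hU
      obtain ⟨k, hk, hk'⟩ := hx₀ ((fun x : X => g • x) ⁻¹' V)
        (hV.preimage (continuous_const_smul g)) hg
      refine ⟨g • k • x₁, hk, fun h => hk' ?_⟩
      rw [← hz] at h
      exact congrArg Subtype.val (MulAction.injective g h)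
    · exact ⟨_, hg, hz⟩
  obtain ⟨W, hWG, hWd, hx₁, hWo, j, hjm, hji, hj⟩ := exists_core x₁ hd
  have : PolishSpace W := polish_of_isGδ hWG
  have : Nonempty K := ⟨x₁⟩
  obtain ⟨w₀, hw₀⟩ := hWd.nonempty
  refine ⟨W, inferInstance, inferInstance, perfect_of_dense hWd, inferInstance, inferInstance,
    inferInstance, continuousConstSMul_sub W, ⟨w₀, hw₀⟩, fun w => w.1.1, j, ?_,
    continuous_subtype_val.comp continuous_subtype_val,
    Subtype.val_injective.comp Subtype.val_injective, fun _ _ => rfl, ⟨x₀, ?_⟩, hjm, hji, hj⟩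
  · intro z
    rw [closure_subtype, SubMulAction.val_image_orbit]
    exact hWo w₀ hw₀ z.1
  · rintro ⟨w, hw⟩
    apply hx₁
    have : w.1 = x₁ := Subtype.ext hw
    exact this ▸ w.2

theorem main_thm (X : Type) [MeasurableSpace X] [StandardBorelSpace X]
    (E : X → X → Prop) (hE : Equivalence E) (hm : MeasurableSet {p : X × X | E p.1 p.2})
    (hc : ∀ x : X, {y : X | E x y}.Countable)
    (hns : ¬ ∃ f : X → ℝ, Measurable f ∧ ∀ x y : X, E x y ↔ f x = f y) :
    ∃ (Γ : Type) (_ : Group Γ) (_ : Countable Γ)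
      (Z : Type) (_ : TopologicalSpace Z) (_ : PolishSpace Z) (_ : PerfectSpace Z)
      (_ : MulAction Γ Z) (_ : ContinuousConstSMul Γ Z)
      (_ : MeasurableSpace Z) (_ : BorelSpace Z) (f : X ≃ᵐ Z),
      (∀ x y : X, E x y ↔ ∃ g : Γ, g • f x = f y) ∧ ∃ z : Z, Dense (MulAction.orbit Γ z) := by
  obtain ⟨act, hmeas, hEG⟩ := feldman_moore hE hm hc
  set G := FreeGroup (ℕ × ℕ × ℕ × Bool) with hG
  obtain ⟨W, _, _, _, _, _, _, _, w₀, ι, j, hw₀, hιm, hιi, hιe, hne, hjm, hji, hj⟩ :
      ∃ (W : Type) (_ : TopologicalSpace W) (_ : PolishSpace W) (_ : PerfectSpace W)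
      (_ : MeasurableSpace W) (_ : BorelSpace W) (_ : MulAction G W) (_ : ContinuousConstSMul G W)
      (w₀ : W) (ι : W → X) (j : W × ℕ → W), Dense (MulAction.orbit G w₀) ∧ Measurable ι ∧
        Injective ι ∧ (∀ (g : G) w, ι (g • w) = g • ι w) ∧ (range ι)ᶜ.Nonempty ∧
        Measurable j ∧ Injective j ∧ ∀ p, ∃ g : G, j p = g • p.1 := by
    obtain ⟨τ, hp, hb, hcs⟩ := exists_polish_continuous hmeas
    obtain ⟨W, i1, i2, i3, i4, i5, i6, i7, w₀, ι, j, h1, h2, h3⟩ := exists_piece (X := X) (G := G)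
      (by simpa only [hEG] using hns)
    exact ⟨W, i1, i2, i3, i4, i5, i6, i7, w₀, ι, j, h1, h2.measurable, h3⟩
  have hιemb : MeasurableEmbedding ι := hιm.measurableEmbedding hιi
  let Y : SubMulAction G X :=
    { carrier := (range ι)ᶜ
      smul_mem' := by
        rintro g x hx ⟨w, hw⟩
        exact hx ⟨g⁻¹ • w, by rw [hιe, hw, inv_smul_smul]⟩ }
  have hYm : MeasurableSet (Y : Set X) := hιemb.measurableSet_range.compl
  have : StandardBorelSpace Y := hYm.standardBorel
  have : Nonempty Y := hne.to_subtype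
  obtain ⟨τ, hp, hb, hcs⟩ := exists_polish_continuous (X := Y) (G := G)
    (fun g => ((hmeas g).comp measurable_subtype_coe).subtype_mk)
  obtain ⟨Γ, _, _, Z, _, _, _, _, _, e, he1, he2, hR, hdense⟩ :=
    glue_main (Y := Y) (W := W) (G := G) w₀ hw₀
  let C := G × ℕ × ℕ
  let : MeasurableSpace C := ⊤
  have : DiscreteMeasurableSpace C := ⟨fun _ => trivial⟩
  obtain ⟨u, hu⟩ := exists_injective_nat C
  have hf : MeasurableEmbedding (fun p : C × W => j (p.2, u p.1)) := by
    refine Measurable.measurableEmbedding (hjm.comp (measurable_snd.prodMk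
      ((measurable_of_countable u).comp measurable_fst))) ?_
    intro p q h
    have := hji h
    exact Prod.ext (hu (congrArg Prod.snd this)) (congrArg Prod.fst this)
  have hg : MeasurableEmbedding (fun w : W => (((1, 0, 0), w) : C × W)) :=
    Measurable.measurableEmbedding (measurable_const.prodMk measurable_id)
      (fun a b h => congrArg Prod.snd h)
  obtain ⟨eW, heW⟩ := measurable_schroeder_bernstein hf hg
  have heW' : ∀ p : C × W, ∃ g : G, eW p = g • p.2 := by
    intro p
    rcases heW p with h | h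
    · rw [h]
      exact hj _
    · exact ⟨1, by rw [one_smul]; exact congrArg Prod.snd h⟩
  let Φ : Y ⊕ (C × W) → X := Sum.elim Subtype.val (fun p => ι (eW p))
  let ι' : Y ⊕ W → X := Sum.elim Subtype.val ι
  have hι'i : Injective ι' := Subtype.val_injective.sumElim hιi
    (fun a b h => a.2 ⟨b, h.symm⟩)
  have hι'e : ∀ (g : G) a, ι' (g • a) = g • ι' a := by
    rintro g (a | a)
    · rfl
    · exact hιe g a
  have hΦ : ∀ a, ∃ g : G, Φ a = g • ι' (Sum.map id Prod.snd a) := by
    rintro (a | p)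
    · exact ⟨1, (one_smul _ _).symm⟩
    · obtain ⟨g, hg⟩ := heW' p
      exact ⟨g, by change ι (eW p) = g • ι p.2; rw [hg, hιe]⟩
  have hΦm : Measurable Φ := measurable_subtype_coe.sumElim (hιm.comp eW.measurable)
  have hΦb : Bijective Φ := by
    constructor
    · exact Subtype.val_injective.sumElim (hιi.comp eW.injective) (fun a b h => a.2 ⟨_, h.symm⟩)
    · intro x
      by_cases hx : x ∈ range ι
      · obtain ⟨w, rfl⟩ := hx
        exact ⟨Sum.inr (eW.symm w), by simp [Φ]⟩
      · exact ⟨Sum.inl ⟨x, hx⟩, rfl⟩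
  let : MeasurableSpace Z := borel Z
  have : BorelSpace Z := ⟨rfl⟩
  have hem : Measurable e := by
    have : (e : Y ⊕ (C × W) → Z) =
        Sum.elim (fun y => e (Sum.inl y)) (fun p => e (Sum.inr p)) := by
      funext a
      rcases a with a | a <;> rfl
    rw [this]
    exact he1.measurable.sumElim
      (measurable_from_prod_countable_right fun c => (he2 c).measurable)
  let ΦE := Equiv.ofBijective Φ hΦb
  let F : X ≃ Z := ΦE.symm.trans e
  have hsymm : Measurable ΦE.symm := by
    intro S hS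
    have : ΦE.symm ⁻¹' S = (Subtype.val '' (Sum.inl ⁻¹' S : Set Y)) ∪
        (ι '' (eW '' (Sum.inr ⁻¹' S))) := by
      rw [← Equiv.image_eq_preimage_symm]
      ext x
      constructor
      · rintro ⟨a | p, ha, rfl⟩
        · exact Or.inl ⟨a, ha, rfl⟩
        · exact Or.inr ⟨_, ⟨p, ha, rfl⟩, rfl⟩
      · rintro (⟨a, ha, rfl⟩ | ⟨_, ⟨p, ha, rfl⟩, rfl⟩)
        · exact ⟨Sum.inl a, ha, rfl⟩
        · exact ⟨Sum.inr p, ha, rfl⟩
    rw [this]
    exact ((MeasurableEmbedding.subtype_coe hYm).measurableSet_image.2 (measurable_inl hS)).union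
      (hιemb.measurableSet_image.2 (eW.measurableEmbedding.measurableSet_image.2
        (measurable_inr hS)))
  have hFm : Measurable F := hem.comp hsymm
  have hFs : Measurable F.symm := by
    intro S hS
    rw [← Equiv.image_eq_preimage_symm]
    exact hS.image_of_measurable_injOn hFm F.injective.injOn
  refine ⟨Γ, inferInstance, inferInstance, Z, inferInstance, inferInstance, inferInstance,
    inferInstance, inferInstance, inferInstance, inferInstance, ⟨F, hFm, hFs⟩, ?_, hdense⟩
  intro x y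
  obtain ⟨a, rfl⟩ := hΦb.2 x
  obtain ⟨b, rfl⟩ := hΦb.2 y
  have ha : F (Φ a) = e a := congrArg e (ΦE.symm_apply_apply a)
  have hb' : F (Φ b) = e b := congrArg e (ΦE.symm_apply_apply b)
  change E (Φ a) (Φ b) ↔ ∃ g : Γ, g • F (Φ a) = F (Φ b)
  rw [ha, hb', hR, hEG]
  obtain ⟨ga, hga⟩ := hΦ a
  obtain ⟨gb, hgb⟩ := hΦ b
  rw [hga, hgb]
  constructor
  · rintro ⟨g, hg⟩
    refine ⟨gb⁻¹ * g * ga, hι'i ?_⟩
    rw [hι'e, mul_smul, mul_smul, hg, inv_smul_smul]
  · rintro ⟨g, hg⟩
    refine ⟨gb * g * ga⁻¹, ?_⟩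
    rw [mul_smul, mul_smul, inv_smul_smul, ← hι'e, hg]

end Pool.Agent.Lib.MP_06d84d_lc
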